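import Pool.Agent.H699.T.Dec

/-!
# The first phase uses few queries (task D1LOC)
-/

set_option autoImplicit false

namespace Pool.Agent.H282.T.D1LOC

open Pool.Agent.H699.T
open Finset Classical

variable {n : ℕ}

theorem dS_congr {d d' : Fin n → Fin n → ℝ} {S : Finset (Fin n)}
    (h : ∀ x ∈ S, ∀ y, d x y = d' x y) : dS d S = dS d' S := by
  funext y
  unfold dS
  split_ifs with hS
  · exact Finset.inf'_congr hS rfl fun x hx => h x hx y
  · rfl

theorem far_congr [NeZero n] {d d' : Fin n → Fin n → ℝ} {S : Finset (Fin n)}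
    (h : ∀ x ∈ S, ∀ y, d x y = d' x y) : far d S = far d' S := by
  unfold far
  rw [dS_congr h]

/-- the net and its rows -/
noncomputable def rws [NeZero n] (i : ℕ) (d : Fin n → Fin n → ℝ) :
    Finset (Fin n) × (Fin n → Fin n → ℝ) :=
  (net d i, fun x y => if x ∈ net d i then d x y else 0)

theorem rws_net [NeZero n] {i : ℕ} {d d' : Fin n → Fin n → ℝ} (h : rws i d = rws i d') :
    net d i = net d' i := congrArg Prod.fst h

theorem rws_row [NeZero n] {i : ℕ} {d d' : Fin n → Fin n → ℝ} (h : rws i d = rws i d') :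
    ∀ x ∈ net d i, ∀ y, d x y = d' x y := by
  intro x hx y
  have h1 := congrFun (congrFun (congrArg Prod.snd h) x) y
  have hx' : x ∈ net d' i := rws_net h ▸ hx
  simp only [rws, if_pos hx, if_pos hx'] at h1
  exact h1

theorem rws_far [NeZero n] {i : ℕ} {d d' : Fin n → Fin n → ℝ} (h : rws i d = rws i d') :
    far d (net d i) = far d' (net d' i) := by
  rw [far_congr (rws_row h), rws_net h]

theorem rws_rad [NeZero n] {m : ℕ} {d d' : Fin n → Fin n → ℝ} (h : rws m d = rws m d') :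
    rad d m = rad d' m := by
  unfold rad
  rw [rws_far h, dS_congr (rws_row h), rws_net h]

theorem rws_dh [NeZero n] {m : ℕ} {d d' : Fin n → Fin n → ℝ} (h : rws m d = rws m d') :
    dh d m = dh d' m := by
  funext x y
  unfold dh
  by_cases hS : (net d m).Nonempty
  · have hS' : (net d' m).Nonempty := rws_net h ▸ hS
    rw [dif_pos hS, dif_pos hS']
    refine Finset.inf'_congr hS (rws_net h) fun z hz => ?_
    have hz' : z ∈ net d m := (rws_net h).symm ▸ hz
    rw [rws_row h z hz', rws_row h z hz']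
  · have hS' : ¬ (net d' m).Nonempty := rws_net h ▸ hS
    rw [dif_neg hS, dif_neg hS']

theorem rws_Dense [NeZero n] {m : ℕ} {d d' : Fin n → Fin n → ℝ} (h : rws m d = rws m d')
    (K0 θ : ℝ) : Pool.Agent.H699.T.Dense d m K0 θ = Pool.Agent.H699.T.Dense d' m K0 θ := by
  funext v
  unfold Pool.Agent.H699.T.Dense
  rw [rws_rad h, rws_dh h]

theorem rws_cen [NeZero n] {m : ℕ} {d d' : Fin n → Fin n → ℝ} (h : rws m d = rws m d')
    (K0 θ : ℝ) : cen d m K0 θ = cen d' m K0 θ := by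
  have h1 : IsCen d m K0 θ = IsCen d' m K0 θ := by
    funext C
    unfold IsCen
    rw [rws_rad h, rws_dh h, rws_Dense h]
  unfold cen
  rw [h1]

theorem loc_rws (hB : S_LOCBASIC) (n : ℕ) [NeZero n] (i : ℕ) :
    LocOn {d : Fin n → Fin n → ℝ | RMet d} (i * n) (rws i) := by
  obtain ⟨hmono, hbind, hdet, hconst, -, hrow, -⟩ := hB
  induction i with
  | zero =>
    rw [zero_mul]
    refine hconst _ _ _ _ _ fun d _ d' _ => ?_
    unfold rws
    simp [net]
  | succ i ih =>
    rw [Nat.succ_mul]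
    refine hbind _ _ _ _ _ _ _ _ _ ih fun a => ?_
    by_cases hex : ∃ d₀, d₀ ∈ {d : Fin n → Fin n → ℝ | d ∈ {d : Fin n → Fin n → ℝ | RMet d} ∧
        rws i d = a}
    · obtain ⟨d₀, hd₀⟩ := hex
      have hr := hrow (Fin n) ℝ {d : Fin n → Fin n → ℝ | d ∈ {d : Fin n → Fin n → ℝ | RMet d} ∧
        rws i d = a} (far d₀ (net d₀ i))
      rw [Fintype.card_fin] at hr
      refine hdet _ _ _ _ _ _ _ _ hr fun d hd d' hd' hp => ?_
      have e1 : rws i d = rws i d' := hd.2.trans hd'.2.symm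
      have e2 : rws i d = rws i d₀ := hd.2.trans hd₀.2.symm
      have f1 := rws_far e1
      have f2 := rws_far e2
      have e3 : net d (i + 1) = net d' (i + 1) := by
        show insert (far d (net d i)) (net d i) = insert (far d' (net d' i)) (net d' i)
        rw [f1, rws_net e1]
      unfold rws
      rw [Prod.mk.injEq]
      refine ⟨e3, ?_⟩
      funext x y
      rw [← e3]
      by_cases hx : x ∈ net d (i + 1)
      · rw [if_pos hx, if_pos hx]
        have hx2 : x ∈ insert (far d (net d i)) (net d i) := hx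
        rw [Finset.mem_insert] at hx2
        rcases hx2 with h | h
        · rw [h, f2]
          exact congrFun hp y
        · exact rws_row e1 x h y
      · rw [if_neg hx, if_neg hx]
    · refine hmono _ _ _ _ _ 0 n _ (hconst _ _ _ {d : Fin n → Fin n → ℝ | d ∈
        {d : Fin n → Fin n → ℝ | RMet d} ∧ rws i d = a} _ fun d hd => absurd ⟨d, hd⟩ hex)
        (fun _ h => h) (Nat.zero_le _)

theorem t_D1LOC : S_LOCBASIC → S_NET → S_D1 → S_D1LOC := by
  intro hB _ hD1 n _ m K0 θ hm2 hmn hK0 hθ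
  refine ⟨m * n + (n * ⌊θ * n⌋₊ + ⌊1 / θ⌋₊ * n), ?_, ?_⟩
  · push_cast
    have h1 : ((⌊θ * n⌋₊ : ℕ) : ℝ) ≤ θ * n := Nat.floor_le (by positivity)
    have h2 : ((⌊1 / θ⌋₊ : ℕ) : ℝ) ≤ 1 / θ := Nat.floor_le (by positivity)
    have hn : (0 : ℝ) ≤ n := Nat.cast_nonneg n
    have h3 := mul_le_mul_of_nonneg_left h1 hn
    have h4 := mul_le_mul_of_nonneg_right h2 hn
    have h5 : 1 / θ * (n : ℝ) = n / θ := by ring
    rw [h5] at h4
    nlinarith
  have hrws := loc_rws hB n m
  obtain ⟨hmono, hbind, hdet, hconst, hpt, hrow, hpi⟩ := hB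
  refine hbind _ _ _ _ _ _ _ _ _ hrws fun a => ?_
  by_cases hex : ∃ d₀, d₀ ∈ {d : Fin n → Fin n → ℝ | d ∈ {d : Fin n → Fin n → ℝ | RMet d} ∧
      rws m d = a}
  swap
  · exact hmono _ _ _ _ _ 0 _ _ (hconst _ _ _ {d : Fin n → Fin n → ℝ | d ∈
      {d : Fin n → Fin n → ℝ | RMet d} ∧ rws m d = a} _ fun d hd => absurd ⟨d, hd⟩ hex)
      (fun _ h => h) (Nat.zero_le _)
  obtain ⟨d₀, hd₀⟩ := hex
  set D' : Set (Fin n → Fin n → ℝ) := {d : Fin n → Fin n → ℝ | d ∈
    {d : Fin n → Fin n → ℝ | RMet d} ∧ rws m d = a} with hD'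
  have hdat := hD1 n d₀ hd₀.1 m K0 θ hm2 hmn hK0 hθ
  -- the pairs and the centres
  set S1 : Finset (Fin n × Fin n) := univ.filter (fun p : Fin n × Fin n =>
    ¬ Dense d₀ m K0 θ p.1 ∧ dh d₀ m p.1 p.2 ≤ K0 * rad d₀ m) with hS1
  have hS1c : S1.card ≤ n * ⌊θ * n⌋₊ := by
    have h1 : S1.card ≤ ∑ v : Fin n, ⌊θ * n⌋₊ := by
      have h2 : S1 = univ.biUnion (fun v : Fin n => (univ.filter (fun y : Fin n =>
          ¬ Dense d₀ m K0 θ v ∧ dh d₀ m v y ≤ K0 * rad d₀ m)).image (fun y => (v, y))) := by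
        ext ⟨v, y⟩
        simp [hS1]
      rw [h2]
      refine Finset.card_biUnion_le.trans (Finset.sum_le_sum fun v _ => ?_)
      refine Finset.card_image_le.trans ?_
      by_cases hv : Dense d₀ m K0 θ v
      · simp [hv]
      · refine Nat.le_floor ?_
        have h3 : ¬ (θ * n < ((univ.filter fun y => dh d₀ m v y ≤ K0 * rad d₀ m).card : ℝ)) := hv
        push Not at h3
        refine le_trans ?_ h3
        exact_mod_cast Finset.card_le_card fun y hy => by
          rw [Finset.mem_filter] at hy ⊢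
          exact ⟨hy.1, hy.2.2⟩
    rw [Finset.sum_const, Finset.card_univ, Fintype.card_fin, smul_eq_mul] at h1
    exact h1
  have hCc : (cen d₀ m K0 θ).card ≤ ⌊1 / θ⌋₊ := by
    refine Nat.le_floor ?_
    rw [le_div_iff₀ hθ]
    exact hdat.2.2.2.2.1
  obtain ⟨g1, hg1, hg1v⟩ : ∃ g1 : (Fin n → Fin n → ℝ) → Fin n × Fin n → ℝ,
      LocOn D' (S1.card * 1) g1 ∧ ∀ d, ∀ i ∈ S1, g1 d i = d i.1 i.2 := by
    refine ⟨_, hpi (Fin n) ℝ ℝ (Fin n × Fin n) D' 1 S1 (fun i d => d i.1 i.2)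
      fun i _ => hpt _ _ _ _ _, fun d i hi => ?_⟩
    rw [if_pos hi]
  have hbindS := hbind (Fin n) ℝ (Fin n × Fin n → ℝ)
    (ℝ × Finset (Fin n) × Finset (Fin n) × (Fin n → Fin n → ℝ) × (Fin n → Fin n → ℝ)) D'
    (S1.card * 1) ((cen d₀ m K0 θ).card * n)
    g1 (info m K0 θ) hg1
  have hle : S1.card * 1 + (cen d₀ m K0 θ).card * n ≤ n * ⌊θ * n⌋₊ + ⌊1 / θ⌋₊ * n := by
    rw [mul_one]
    exact Nat.add_le_add hS1c (Nat.mul_le_mul_right n hCc)
  refine hmono _ _ _ D' D' _ _ _ (hbindS fun b => ?_) (fun _ h => h) hle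
  have hg2 := hpi (Fin n) ℝ (Fin n → ℝ) (Fin n) {d | d ∈ D' ∧ g1 d = b} n
      (cen d₀ m K0 θ) (fun c d => d c) fun c _ => by
        have h := hrow (Fin n) ℝ {d | d ∈ D' ∧ g1 d = b} c
        rwa [Fintype.card_fin] at h
  refine hdet _ _ _ _ _ _ _ _ hg2 ?_
  rintro d ⟨hd, hdb⟩ d' ⟨hd', hdb'⟩ hrows
  have e1 : rws m d = rws m d' := hd.2.trans hd'.2.symm
  have e0 : rws m d = rws m d₀ := hd.2.trans hd₀.2.symm
  have e0' : rws m d' = rws m d₀ := hd'.2.trans hd₀.2.symm
  -- known values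
  have k1 : ∀ x y, ¬ Dense d₀ m K0 θ x → dh d₀ m x y ≤ K0 * rad d₀ m → d x y = d' x y := by
    intro x y hx hxy
    have hmem : (x, y) ∈ S1 := by
      rw [hS1, Finset.mem_filter]
      exact ⟨Finset.mem_univ _, hx, hxy⟩
    have h := congrFun (hdb.trans hdb'.symm) (x, y)
    rw [hg1v d _ hmem, hg1v d' _ hmem] at h
    exact h
  have k2 : ∀ x, x ∈ cen d₀ m K0 θ → ∀ y, d x y = d' x y := by
    intro x hx y
    have h := congrFun (congrFun hrows x) y
    simp only [if_pos hx] at h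
    exact h
  have s1 : ∀ x y, d x y = d y x := hd.1.met.symm
  have s2 : ∀ x y, d' x y = d' y x := hd'.1.met.symm
  have hc := rws_cen e0 K0 θ
  have hc' := rws_cen e0' K0 θ
  have hD := rws_Dense e0 K0 θ
  have hDn' := rws_Dense e0' K0 θ
  have hr := rws_rad e0
  have hr' := rws_rad e0'
  have hh := rws_dh e0
  have hh' := rws_dh e0'
  have hdt : dt d m K0 θ = dt d' m K0 θ := by
    funext x y
    unfold dt
    rw [hc, hc', hD, hDn', hr, hr', hh, hh']
    by_cases h1 : x ∈ cen d₀ m K0 θ ∨ y ∈ cen d₀ m K0 θ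
    · rw [if_pos h1, if_pos h1]
      rcases h1 with h | h
      · exact k2 x h y
      · rw [s1, s2]
        exact k2 y h x
    · rw [if_neg h1, if_neg h1]
      by_cases h2 : (¬ Dense d₀ m K0 θ x ∨ ¬ Dense d₀ m K0 θ y) ∧
          dh d₀ m x y ≤ K0 * rad d₀ m
      · rw [if_pos h2, if_pos h2]
        rcases h2.1 with h | h
        · exact k1 x y h h2.2
        · rw [s1, s2]
          refine k1 y x h ?_
          rw [← (hdat.1 x y).2.2]
          exact h2.2
      · rw [if_neg h2, if_neg h2]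
  have hrow2 : (fun (c y : Fin n) => if c ∈ cen d m K0 θ then d c y else 0) =
      fun (c y : Fin n) => if c ∈ cen d' m K0 θ then d' c y else 0 := by
    funext x y
    rw [hc, hc']
    by_cases h : x ∈ cen d₀ m K0 θ
    · rw [if_pos h, if_pos h]
      exact k2 x h y
    · rw [if_neg h, if_neg h]
  unfold info
  rw [hrow2, hdt, hr, hr', hD, hDn', hc, hc']

end Pool.Agent.H282.T.D1LOC
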